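import Mathlib

/-!
# The structure `⟨ℕ_{>0}; +, x·2^y, ≤, 1⟩` is not automatic

The definitions below follow the problem file: words over a finite alphabet are lists,
the convolution pads on the right (`none` is the padding symbol), a relation on words is
automatic if the set of convolutions of its tuples is regular, and a structure is automatic
if it is isomorphic to a structure whose domain is a regular language, with automatic
relations and automatic graphs of functions.
-/

namespace Pool.Agent.Results.MP_34afd1_lc.NotAutomatic

open FirstOrder FirstOrder.Language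

/-- The convolution of a tuple of words over `A`: each word is padded on the right with the
padding symbol `none` up to the maximal length, and the tuple is read as one word over
`Fin k → Option A`. -/
def conv {A : Type} {k : ℕ} (w : Fin k → List A) : List (Fin k → Option A) :=
  (List.range (Finset.univ.sup fun j => (w j).length)).map fun i j => (w j)[i]?

/-- A `k`-ary relation on words is automatic if the set of convolutions of its tuples is a
regular language. -/
def AutomaticRel {A : Type} {k : ℕ} (R : Set (Fin k → List A)) : Prop :=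
  Language.IsRegular ({u | ∃ w ∈ R, u = conv w} : _root_.Language (Fin k → Option A))

/-- A structure whose domain is the set of words `D`: it is an automatic structure on `D` if
`D` is regular, every relation is automatic and the graph of every `n`-ary function is an
automatic `(n+1)`-ary relation. (Constants are the case `n = 0`; the graph of a constant is a
single word, which is always regular, so nothing is required of constants.) -/
def IsAutomaticOn (L : FirstOrder.Language.{0, 0}) {A : Type} (D : _root_.Language A)
    [L.Structure {w : List A // w ∈ D}] : Prop :=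
  D.IsRegular ∧
  (∀ (n : ℕ) (R : L.Relations n),
    AutomaticRel {w : Fin n → List A | ∃ x : Fin n → {w : List A // w ∈ D},
      Structure.RelMap R x ∧ w = fun i => (x i : List A)}) ∧
  (∀ (n : ℕ) (f : L.Functions n),
    AutomaticRel {w : Fin (n + 1) → List A | ∃ x : Fin n → {w : List A // w ∈ D},
      w = Fin.snoc (α := fun _ => List A) (fun i => (x i : List A))
        ((Structure.funMap f x : {w : List A // w ∈ D}) : List A)})

/-- A structure `M` is automatic if it is isomorphic to an automatic structure on some set of
words over a finite alphabet. -/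
def IsAutomatic (L : FirstOrder.Language.{0, 0}) (M : Type) [L.Structure M] : Prop :=
  ∃ (A : Type) (_ : Finite A) (D : _root_.Language A)
    (_ : L.Structure {w : List A // w ∈ D}),
    IsAutomaticOn L D ∧ Nonempty (M ≃[L] {w : List A // w ∈ D})

/-- The function symbols of the structure: the constant `1`, addition, and `x·2^y`. -/
inductive Func : ℕ → Type
  | one : Func 0
  | add : Func 2
  | shift : Func 2

/-- The relation symbols of the structure: the order. -/
inductive Rel : ℕ → Type
  | le : Rel 2

/-- The first-order language of `⟨ℕ_{>0}; +, x·2^y, ≤, 1⟩`. -/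
def Lang : FirstOrder.Language.{0, 0} := ⟨Func, Rel⟩

/-- The structure `⟨ℕ_{>0}; +, x·2^y, ≤, 1⟩`. -/
instance structPNat : Lang.Structure ℕ+ where
  funMap := fun {n} (f : Func n) => match n, f with
    | _, Func.one => fun _ => 1
    | _, Func.add => fun x => x 0 + x 1
    | _, Func.shift => fun x => x 0 * 2 ^ (x 1 : ℕ)
  RelMap := fun {n} (r : Rel n) => match n, r with
    | _, Rel.le => fun x => x 0 ≤ x 1

/-! ### Convolutions -/

lemma filterMap_range {A : Type} (l : List A) :
    ∀ N, l.length ≤ N → (List.range N).filterMap (fun i => l[i]?) = l := by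
  induction l with
  | nil => intro N _; simp
  | cons a l ih =>
    intro N hN
    obtain ⟨N, rfl⟩ : ∃ N', N = N' + 1 := ⟨N - 1, by simp at hN; omega⟩
    rw [List.range_succ_eq_map, List.filterMap_cons, List.filterMap_map]
    simp only [List.getElem?_cons_zero]
    congr 1
    have := ih N (by simpa using hN)
    simpa [Function.comp_def] using this

lemma filterMap_conv {A : Type} {k : ℕ} (w : Fin k → List A) (j : Fin k) :
    (conv w).filterMap (fun c => c j) = w j := by
  unfold conv
  rw [List.filterMap_map]
  exact filterMap_range (w j) _ (Finset.le_sup (f := fun j => (w j).length) (Finset.mem_univ j))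

lemma length_conv {A : Type} {k : ℕ} (w : Fin k → List A) (j : Fin k) :
    (w j).length ≤ (conv w).length := by
  unfold conv
  simpa using (Finset.le_sup (f := fun j => (w j).length) (Finset.mem_univ j))

lemma drop_conv {A : Type} {k : ℕ} (w : Fin k → List A) (j : Fin k) (m : ℕ)
    (hm : (w j).length ≤ m) : ∀ c ∈ (conv w).drop m, c j = none := by
  intro c hc
  rw [List.mem_iff_getElem] at hc
  obtain ⟨i, hi, rfl⟩ := hc
  simp only [conv, List.getElem_drop, List.getElem_map, List.getElem_range]
  rw [List.getElem?_eq_none_iff]
  omega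

/-- Pumping: a function with automatic graph lengthens words by at most a constant. -/
lemma growth {A : Type} {n : ℕ} (R : Set (Fin (n + 1) → List A)) (hR : AutomaticRel R)
    (hfun : ∀ w ∈ R, ∀ w' ∈ R, (∀ j : Fin n, w j.castSucc = w' j.castSucc) → w = w') :
    ∃ c : ℕ, ∀ w ∈ R, ∀ m, (∀ j : Fin n, (w j.castSucc).length ≤ m) →
      (w (Fin.last n)).length ≤ m + c := by
  obtain ⟨σ, _, M, hM⟩ := hR
  refine ⟨Fintype.card σ, fun w hw m hm => ?_⟩
  by_contra hlt
  push Not at hlt
  have hlen := length_conv w (Fin.last n)
  have hacc : conv w ∈ M.accepts := by rw [hM]; exact ⟨w, hw, rfl⟩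
  have ht : Fintype.card σ ≤ ((conv w).drop m).length := by
    rw [List.length_drop]; omega
  obtain ⟨q, a, b, c, habc, -, hb, hqa, hqb, hqc⟩ :=
    M.evalFrom_split (s := M.evalFrom M.start ((conv w).take m)) ht rfl
  have hacc' : (conv w).take m ++ a ++ c ∈ M.accepts := by
    rw [DFA.mem_accepts] at hacc ⊢
    unfold DFA.eval at hacc ⊢
    rw [DFA.evalFrom_of_append, DFA.evalFrom_of_append, hqa, hqc, ← DFA.evalFrom_of_append,
      List.take_append_drop]
    exact hacc
  rw [hM] at hacc'
  obtain ⟨w', hw', hconv⟩ := hacc'
  have hnone : ∀ j : Fin n, ∀ x ∈ (conv w).drop m, x j.castSucc = none :=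
    fun j => drop_conv w j.castSucc m (hm j)
  have hww : w = w' := by
    refine hfun w hw w' hw' fun j => ?_
    have h1 := filterMap_conv w j.castSucc
    have h2 := filterMap_conv w' j.castSucc
    rw [← hconv] at h2
    rw [← List.take_append_drop m (conv w), List.filterMap_append] at h1
    have hd : ((conv w).drop m).filterMap (fun c => c j.castSucc) = [] := by
      rw [List.filterMap_eq_nil_iff]; exact hnone j
    have ha : a.filterMap (fun c => c j.castSucc) = [] := by
      rw [List.filterMap_eq_nil_iff]
      intro x hx
      exact hnone j x (by rw [habc]; simp [hx])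
    have hc : c.filterMap (fun c => c j.castSucc) = [] := by
      rw [List.filterMap_eq_nil_iff]
      intro x hx
      exact hnone j x (by rw [habc]; simp [hx])
    rw [hd, List.append_nil] at h1
    rw [List.filterMap_append, List.filterMap_append, ha, hc, List.append_nil,
      List.append_nil] at h2
    rw [← h1, ← h2]
  rw [← hww] at hconv
  have hl := congrArg List.length hconv
  have hl2 := congrArg List.length (List.take_append_drop m (conv w))
  rw [habc] at hl2
  simp only [List.length_append] at hl hl2
  have : 0 < b.length := List.length_pos_iff.mpr hb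
  omega

/-! ### The generation argument -/

/-- Combinatorial core: no injection `e` of the positive integers into words over a finite
alphabet is such that both `+` and `x·2^y` lengthen words by at most a constant. -/
lemma core {A : Type} [Finite A] (e : ℕ+ → List A) (he : Function.Injective e) (c : ℕ)
    (hadd : ∀ x y : ℕ+, ∀ m, (e x).length ≤ m → (e y).length ≤ m → (e (x + y)).length ≤ m + c)
    (hsh : ∀ x y : ℕ+, ∀ m, (e x).length ≤ m → (e y).length ≤ m →
      (e (x * 2 ^ (y : ℕ))).length ≤ m + c) : False := by
  classical
  have := Fintype.ofFinite A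
  set m0 := (e 1).length with hm0
  -- powers of two
  have hpow : ∀ k : ℕ, (e (2 ^ k)).length ≤ m0 + k * c := by
    intro k
    induction k with
    | zero => simp [hm0]
    | succ k ih =>
      have := hadd (2 ^ k) (2 ^ k) _ ih ih
      have h2 : (2 : ℕ+) ^ k + 2 ^ k = 2 ^ (k + 1) := by
        apply PNat.eq
        push_cast
        ring
      rw [h2] at this
      calc (e (2 ^ (k + 1))).length ≤ m0 + k * c + c := this
        _ = m0 + (k + 1) * c := by ring
  -- all numbers below 2^(2^k)
  have hall : ∀ k : ℕ, ∀ x : ℕ+, (x : ℕ) < 2 ^ 2 ^ k → (e x).length ≤ m0 + 2 * k * c := by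
    intro k
    induction k with
    | zero =>
      intro x hx
      have : x = 1 := by
        apply PNat.eq
        have h0 := x.pos
        norm_num at hx
        rw [PNat.one_coe]
        omega
      subst this
      simp [hm0]
    | succ k ih =>
      intro x hx
      set Q := 2 ^ 2 ^ k with hQ
      have hQpos : 0 < Q := by positivity
      have hdm : Q * ((x : ℕ) / Q) + (x : ℕ) % Q = x := Nat.div_add_mod _ _
      have hr : (x : ℕ) % Q < Q := Nat.mod_lt _ hQpos
      have hq : (x : ℕ) / Q < Q := by
        rw [Nat.div_lt_iff_lt_mul hQpos]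
        have : Q * Q = 2 ^ 2 ^ (k + 1) := by
          rw [hQ, ← pow_add]; congr 1; ring
        omega
      -- the shifted part
      have hshift : ∀ q : ℕ+, (q : ℕ) < Q →
          (e (q * 2 ^ (((2 ^ k : ℕ+)) : ℕ))).length ≤ m0 + 2 * k * c + c := by
        intro q hq
        refine hsh q (2 ^ k) _ (ih q hq) ?_
        refine (hpow k).trans ?_
        have : k * c ≤ 2 * k * c := by nlinarith [Nat.zero_le (k * c)]
        omega
      have hval : ∀ q : ℕ+, ((q * 2 ^ (((2 ^ k : ℕ+)) : ℕ) : ℕ+) : ℕ) = q * Q := by
        intro q
        simp [hQ]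
      rcases Nat.eq_zero_or_pos ((x : ℕ) / Q) with hq0 | hqpos
      · have hxQ : (x : ℕ) < Q := by
          rw [hq0] at hdm
          omega
        refine (ih x hxQ).trans ?_
        have : 2 * k * c ≤ 2 * (k + 1) * c := by nlinarith
        omega
      · obtain ⟨q, hqv⟩ : ∃ q : ℕ+, (q : ℕ) = (x : ℕ) / Q := ⟨⟨_, hqpos⟩, rfl⟩
        have h1 := hshift q (by rw [hqv]; exact hq)
        rcases Nat.eq_zero_or_pos ((x : ℕ) % Q) with hr0 | hrpos
        · have hx' : x = q * 2 ^ (((2 ^ k : ℕ+)) : ℕ) := by
            apply PNat.eq
            rw [hval, hqv]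
            rw [hr0] at hdm
            nlinarith
          rw [← hx'] at h1
          refine h1.trans ?_
          have : 2 * (k + 1) * c = 2 * k * c + 2 * c := by ring
          omega
        · obtain ⟨r, hrv⟩ : ∃ r : ℕ+, (r : ℕ) = (x : ℕ) % Q := ⟨⟨_, hrpos⟩, rfl⟩
          have h2 := ih r (by rw [hrv]; exact hr)
          have h3 := hadd _ _ _ h1 (h2.trans (Nat.le_add_right _ c))
          have hx' : x = q * 2 ^ (((2 ^ k : ℕ+)) : ℕ) + r := by
            apply PNat.eq
            rw [PNat.add_coe, hval, hqv, hrv]
            nlinarith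
          rw [← hx'] at h3
          refine h3.trans ?_
          have : 2 * (k + 1) * c = 2 * k * c + 2 * c := by ring
          omega
  -- counting
  have hcount : ∀ k : ℕ, 2 ^ 2 ^ k - 1 ≤ (Fintype.card A + 1) ^ (m0 + 2 * k * c) := by
    intro k
    set m := m0 + 2 * k * c with hm
    have hmem : ∀ i : Fin (2 ^ 2 ^ k - 1), (e ⟨(i : ℕ) + 1, Nat.succ_pos _⟩).length ≤ m := by
      intro i
      refine hall k _ ?_
      show (i : ℕ) + 1 < 2 ^ 2 ^ k
      have := i.isLt
      omega
    let g : Fin (2 ^ 2 ^ k - 1) → (Fin m → Option A) :=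
      fun i j => (e ⟨(i : ℕ) + 1, Nat.succ_pos _⟩)[(j : ℕ)]?
    have hg : Function.Injective g := by
      intro i i' hii
      have hlist : e ⟨(i : ℕ) + 1, Nat.succ_pos _⟩ = e ⟨(i' : ℕ) + 1, Nat.succ_pos _⟩ := by
        apply List.ext_getElem?
        intro j
        by_cases hj : j < m
        · exact congrFun hii ⟨j, hj⟩
        · rw [List.getElem?_eq_none_iff.mpr ((hmem i).trans (by omega)),
            List.getElem?_eq_none_iff.mpr ((hmem i').trans (by omega))]
      have := he hlist
      have h3 := congrArg (fun x : ℕ+ => (x : ℕ)) this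
      apply Fin.ext
      simpa using h3
    have := Fintype.card_le_of_injective g hg
    simpa using this
  -- contradiction by growth rates
  obtain ⟨t, ht⟩ : ∃ t, Fintype.card A + 1 ≤ 2 ^ t :=
    ⟨Fintype.card A + 1, (Nat.lt_two_pow_self).le⟩
  have hbound : ∀ k : ℕ, 2 ^ k ≤ t * (m0 + 2 * k * c) + 1 := by
    intro k
    have h1 : 2 ^ 2 ^ k - 1 ≤ 2 ^ (t * (m0 + 2 * k * c)) :=
      (hcount k).trans ((Nat.pow_le_pow_left ht _).trans (by rw [← pow_mul]))
    by_contra hcon
    push Not at hcon
    have h2 : 2 ^ (t * (m0 + 2 * k * c) + 2) ≤ 2 ^ 2 ^ k :=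
      Nat.pow_le_pow_right (by norm_num) (by omega)
    have h3 : 2 ^ (t * (m0 + 2 * k * c) + 2) = 4 * 2 ^ (t * (m0 + 2 * k * c)) := by ring
    have h4 : 0 < 2 ^ (t * (m0 + 2 * k * c)) := by positivity
    omega
  set K := t * (m0 + 2 * c) + 4 with hK
  have hb := hbound K
  have hKK : K * K ≤ 2 ^ K := by
    have : ∀ n : ℕ, 4 ≤ n → n * n ≤ 2 ^ n := by
      intro n hn
      induction n, hn using Nat.le_induction with
      | base => norm_num
      | succ n hn ih => rw [pow_succ]; nlinarith
    exact this K (by omega)
  have hle : t * (m0 + 2 * K * c) + 1 ≤ K * (K - 3) := by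
    have h1 : t * (m0 + 2 * K * c) ≤ t * (K * m0 + 2 * K * c) := by
      apply Nat.mul_le_mul_left
      have : m0 ≤ K * m0 := Nat.le_mul_of_pos_left _ (by omega)
      omega
    have h2 : t * (K * m0 + 2 * K * c) = K * (t * (m0 + 2 * c)) := by ring
    have h3 : K - 3 = t * (m0 + 2 * c) + 1 := by omega
    rw [h3]
    nlinarith
  have hlt : K * (K - 3) < K * K := by
    apply Nat.mul_lt_mul_of_pos_left <;> omega
  omega

/-- **The structure `⟨ℕ_{>0}; +, x·2^y, ≤, 1⟩` is not automatic.** -/
theorem result : ¬ IsAutomatic Lang ℕ+ := by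
  rintro ⟨A, hA, D, hS, ⟨-, -, hfun⟩, ⟨φ⟩⟩
  have key : ∀ f : Func 2, ∃ c : ℕ, ∀ x y : ℕ+, ∀ m, ((φ x : List A)).length ≤ m →
      ((φ y : List A)).length ≤ m →
      ((φ (Structure.funMap (L := Lang) f ![x, y]) : List A)).length ≤ m + c := by
    intro f
    obtain ⟨c, hc⟩ := growth _ (hfun 2 f) (by
      rintro w ⟨x, rfl⟩ w' ⟨x', rfl⟩ h
      have hx : x = x' := by
        funext j
        apply Subtype.ext
        have := h j
        simpa using this
      rw [hx])
    refine ⟨c, fun x y m hx hy => ?_⟩
    have := hc _ ⟨![φ x, φ y], rfl⟩ m (by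
      intro j
      simp only [Fin.snoc_castSucc]
      fin_cases j
      · simpa using hx
      · simpa using hy)
    simp only [Fin.snoc_last] at this
    have hmap : φ (Structure.funMap (L := Lang) f ![x, y]) =
        Structure.funMap (L := Lang) f ![φ x, φ y] := by
      have := φ.map_fun' (n := 2) f ![x, y]
      rw [show (![φ x, φ y] : Fin 2 → {w : List A // w ∈ D}) = φ ∘ ![x, y] by
        funext j; fin_cases j <;> rfl]
      exact this
    rw [hmap]
    exact this
  obtain ⟨c1, h1⟩ := key Func.add
  obtain ⟨c2, h2⟩ := key Func.shift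
  refine core (A := A) (fun x => (φ x : List A)) ?_ (c1 + c2) ?_ ?_
  · intro x y hxy
    exact φ.injective (Subtype.ext hxy)
  · intro x y m hx hy
    have := h1 x y m hx hy
    have h3 : Structure.funMap (L := Lang) Func.add ![x, y] = x + y := rfl
    rw [h3] at this
    omega
  · intro x y m hx hy
    have := h2 x y m hx hy
    have h3 : Structure.funMap (L := Lang) Func.shift ![x, y] = x * 2 ^ (y : ℕ) := rfl
    rw [h3] at this
    omega

end Pool.Agent.Results.MP_34afd1_lc.NotAutomatic
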